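import Pool.Agent.TH607.D4.Main

/-!
# It is undecidable whether the universal cover of the boundary of a 5-dimensional thickening is spin

Let `p` be a finite presentation whose relators carry labels in `ℤ/2`, and let `Z(p)` be the
boundary of the 5-dimensional orientable thickening of the presentation complex whose `w₂` is given
by the labels. Every smooth 4-manifold `M` which is a closed oriented such boundary has
`π₁(frame bundle) = FrameGroup p = ⟨x, z | z² = 1, z central, r z^ε = 1⟩`, where `z` is the image of
the generator of `π₁(SO(4))`. So `z = 1` if and only if the universal cover of `Z(p)` is not spin.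
-/

set_option autoImplicit false

namespace Pool.Agent.Results.MP_d40431_gt.SpinUniversalCover

open Pool.Agent.TH607.D4

/-- No algorithm decides for all labelled presentations `p` whether `z = 1` in `FrameGroup p`. -/
theorem result : ¬ ComputablePred (fun p : Pres => zz p = 1) := by
  intro h
  obtain ⟨m, R, W, hW, hund⟩ := Pool.Agent.Helper270.WP.word_problem
  have hP : Computable (fun n => pres m (wordsOf R) (nat (W n))) :=
    (primrec_pres m (wordsOf R)).to_comp.comp ((primrec_nat m).to_comp.comp hW)
  obtain ⟨f, hf, hf2⟩ := ComputablePred.computable_iff.mp h
  refine hund (ComputablePred.computable_iff.mpr ⟨_, hf.comp hP, ?_⟩)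
  funext n
  have := congrFun hf2 (pres m (wordsOf R) (nat (W n)))
  rw [← this]
  exact propext (zz_iff R (W n)).symm

end Pool.Agent.Results.MP_d40431_gt.SpinUniversalCover
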