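import Pool.Agent.TH607.D4.Main

/-!
# No algorithm decides diffeomorphism of homeomorphic closed triangulated 4-manifolds

The theorem is proved for every theory of closed 4-manifolds in the sense of the structure
`FourManifolds`, whose fields are classical published facts (Freedman, Wall, Mandelbaum-Moishezon,
Kreck, Kirby-Taylor, Whitehead, Markov); they are assumed, not proved.

Let `G = ⟨x | R⟩` be a finitely presented group with unsolvable word problem (Novikov-Boone, proved
in `Pool.Agent.Helper270.WPB`). For a word `u` let `p(u)` be the presentation
`⟨x, s, t | R, [[u, s], t]⟩` in which only the last relator has label `1`, and let `Z` be the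
boundary of its 5-dimensional thickening with `w₂` given by the labels. The fundamental group of the
frame bundle of `Z` is `E = ⟨x, s, t, z | z² = 1, z central, R, [[u, s], t] = z⟩`.
If `u = 1` in `G` then `z = 1` in `E`: the universal cover of `Z` is not spin.
If `u ≠ 1` in `G` then `z ≠ 1` in `E`: let `E` act on the triples `(g, v, e)`, `g ∈ G`,
`v : G → ℤ/2`, `e ∈ ℤ/2`, by `h (g, v, e) = (h g, v, e)`, `s (g, v, e) = (g, v + δ_g, e)`,
`t (g, v, e) = (g, v, e + v(g))`, `z (g, v, e) = (g, v, e + 1)`. So the universal cover of `Z` is
spin.
Let `R` be the boundary of the 5-dimensional thickening of `ℝP²` with `w₁ ≠ 0`, `w₂ = 0`, and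
`X₁ = R # Z # K3 # (S² × S²)`, `X₂ = R # Z # 12 (S² × S²)`. They are always homeomorphic,
since `K3 = E₈ # E₈ # 3 (S² × S²)`, and the orientation of a summand does not matter in a
nonorientable manifold. If the universal cover of `Z` is not spin they are diffeomorphic: replace
`S² × S²` by `ℂP² # (-ℂP²)`; then `K3` dissolves. If it is spin, they are not even stably
diffeomorphic: `R # Z # 12 (S² × S²)` bounds, compatibly with its normal 1-type, and every
automorphism of the normal 1-type fixes the class `0`; but the class of `X₁` is that of `K3`, which
is nonzero in `Ω₄(ξ') = (ℤ/16 ⊕ Ω₄(ξ)) / ⟨(8, -K3)⟩` because `8 ≠ 0` and `K3` has nonzero signature.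
So an algorithm for diffeomorphism would solve the word problem of `G`.
(The idea was found by helper651, with the exotic `ℝP⁴`, and independently by helper744, whose
manifold `R` is used here; Lean by helper607.)
-/

set_option autoImplicit false

namespace Pool.Agent.Results.MP_d40431_gt.UndecidableNonorientable

open Pool.Agent.TH607.D4

/-- There is no partial algorithm that halts on every pair of homeomorphic closed connected
triangulated 4-manifolds and decides whether they are diffeomorphic. -/
theorem result (T : FourManifolds) :
    ¬ ∃ A : List (List ℕ) × List (List ℕ) →. Bool, Partrec A ∧ DecidesDiffeo A := by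
  rintro ⟨A, hA, H⟩
  exact T.no_decision A hA H

end Pool.Agent.Results.MP_d40431_gt.UndecidableNonorientable
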